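import Pool.Agent.Q31.RA.Stm

set_option autoImplicit false

/-! Project RA (helper31), job RA-DE: decomposition of `A ⧸ N` as a `C`-set. -/

namespace Pool.Agent.Q238.RA

open Pool.Agent.Q31.RA

theorem t_Decomp : S_Decomp := by
  intro C A _ _ j N _ _ D hD
  have hD' : ∀ c : C, c ∈ D ↔ j c ∈ N := by
    intro c
    rw [← hD]
    rfl
  set π : A →* A ⧸ N := QuotientGroup.mk' N with hπ
  set H : Subgroup (A ⧸ N) := (π.comp j).range with hH
  have hsurj : ∀ q : A ⧸ N, ∃ a : A, π a = q := fun q => QuotientGroup.mk'_surjective N q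
  choose sec hsec using hsurj
  refine ⟨(A ⧸ N) ⧸ H, inferInstance, fun o => sec ((Quotient.out o)⁻¹), ?_, ?_⟩
  · rintro ⟨x, o⟩ ⟨x', o'⟩ h
    have h1 : π (j (Quotient.out x) * sec ((Quotient.out o)⁻¹)) =
        π (j (Quotient.out x') * sec ((Quotient.out o')⁻¹)) := h
    rw [map_mul, map_mul, hsec, hsec] at h1
    have h2 : (Quotient.out o) * (π (j (Quotient.out x)))⁻¹ =
        (Quotient.out o') * (π (j (Quotient.out x')))⁻¹ := by
      have h3 := congrArg (fun z => z⁻¹) h1
      simpa [mul_inv_rev] using h3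
    have hmem : ∀ c : C, (π (j c))⁻¹ ∈ H := fun c => H.inv_mem ⟨c, rfl⟩
    have h4 : ∀ (q : (A ⧸ N) ⧸ H) (c : C),
        (((Quotient.out q) * (π (j c))⁻¹ : A ⧸ N) : (A ⧸ N) ⧸ H) = q := by
      intro q c
      rw [QuotientGroup.mk_mul_of_mem _ (hmem c)]
      exact QuotientGroup.out_eq' q
    have h5 : o = o' := by
      rw [← h4 o (Quotient.out x), ← h4 o' (Quotient.out x'), h2]
    subst h5
    have h6 : π (j (Quotient.out x)) = π (j (Quotient.out x')) := mul_right_cancel h1
    have h7 : (Quotient.out x)⁻¹ * (Quotient.out x') ∈ D := by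
      rw [hD', map_mul, map_inv]
      exact QuotientGroup.eq.1 h6
    have h8 : x = x' := by
      rw [← QuotientGroup.out_eq' x, ← QuotientGroup.out_eq' x']
      exact QuotientGroup.eq.2 h7
    rw [h8]
  · intro z
    set o : (A ⧸ N) ⧸ H := ((z⁻¹ : A ⧸ N) : (A ⧸ N) ⧸ H) with ho
    have h1 : (Quotient.out o)⁻¹ * z⁻¹ ∈ H := by
      apply QuotientGroup.eq.1
      rw [QuotientGroup.out_eq' o]
    have h2 : z * Quotient.out o ∈ H := by
      have := H.inv_mem h1
      simpa [mul_inv_rev] using this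
    obtain ⟨c, hc⟩ := h2
    refine ⟨((c : C ⧸ D), o), ?_⟩
    show π (j (Quotient.out (c : C ⧸ D)) * sec ((Quotient.out o)⁻¹)) = z
    have h3 : π (j (Quotient.out (c : C ⧸ D))) = π (j c) := by
      apply QuotientGroup.eq.2
      rw [← map_inv, ← map_mul]
      have h4 : (Quotient.out (c : C ⧸ D))⁻¹ * c ∈ D := by
        apply QuotientGroup.eq.1
        rw [QuotientGroup.out_eq']
      exact (hD' _).1 h4
    rw [map_mul, hsec, h3]
    have h5 : π (j c) = z * Quotient.out o := hc
    rw [h5, mul_inv_cancel_right]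

end Pool.Agent.Q238.RA
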