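import Pool.Agent.Q31.RA.Stm

set_option autoImplicit false

/-! Project RA (helper31), job RA-GE: a generic character. -/

namespace Pool.Agent.Q238.RA

open Pool.Agent.Q31.RA Polynomial

theorem gen_poly (Q : Type) [Group Q] [Finite Q] (W : Q → ℤ) (hW : W 1 ≠ 0) :
    ∃ t : Q → ℤ, ∀ [Fintype Q], ∀ q : Q, ∑ f : Q, W (q * f) * t f ≠ 0 := by
  classical
  have : Fintype Q := Fintype.ofFinite Q
  obtain ⟨i⟩ : Nonempty (Q ↪ ℕ) := ⟨(Finite.equivFin Q).toEmbedding.trans Fin.valEmbedding⟩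
  set P : Q → ℤ[X] := fun q => ∑ f : Q, C (W (q * f)) * X ^ (i f) with hP
  have h1 : ∀ q, P q ≠ 0 := by
    intro q h
    have h2 : (P q).coeff (i q⁻¹) = W 1 := by
      simp only [hP, finsetSum_coeff, coeff_C_mul, coeff_X_pow]
      rw [Finset.sum_eq_single q⁻¹]
      · simp
      · intro b _ hb
        rw [if_neg, mul_zero]
        intro h3
        exact hb (i.injective h3.symm)
      · intro h3
        exact absurd (Finset.mem_univ _) h3
    rw [h, coeff_zero] at h2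
    exact hW h2.symm
  have h2 : ∏ q : Q, P q ≠ 0 := Finset.prod_ne_zero_iff.2 fun q _ => h1 q
  obtain ⟨B, hB⟩ : ∃ B : ℤ, (∏ q : Q, P q).eval B ≠ 0 := by
    by_contra h
    push Not at h
    apply h2
    apply Polynomial.funext
    intro r
    rw [h r, eval_zero]
  rw [eval_prod] at hB
  refine ⟨fun f => B ^ (i f), ?_⟩
  intro inst q
  have h3 := Finset.prod_ne_zero_iff.1 hB q (@Finset.mem_univ Q this q)
  simp only [hP, eval_finsetSum, eval_mul, eval_C, eval_pow, eval_X] at h3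
  intro h4
  apply h3
  rw [← h4]
  apply Finset.sum_congr _ (fun _ _ => rfl)
  ext x
  simp

theorem t_Gen : S_Gen := by
  intro A _ N _ _ χ e he hχ
  classical
  have : Fintype (A ⧸ N) := Fintype.ofFinite _
  set W : A → ℤ := fun y => (χ (MulAut.conjNormal y⁻¹ ⟨e, he⟩)).toAdd with hW
  have hcomp : ∀ (x y : A) (z : N), MulAut.conjNormal x (MulAut.conjNormal y z) =
      MulAut.conjNormal (x * y) z := by
    intro x y z
    rw [map_mul]
    rfl
  have hWN : ∀ (y : A) (n : A), n ∈ N → W (y * n) = W y := by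
    intro y n hn
    simp only [hW]
    have h1 : MulAut.conjNormal (y * n)⁻¹ (⟨e, he⟩ : N) =
        (⟨n, hn⟩ : N)⁻¹ * MulAut.conjNormal y⁻¹ (⟨e, he⟩ : N) * ⟨n, hn⟩ := by
      apply Subtype.ext
      simp only [MulAut.conjNormal_apply, Subgroup.coe_mul, Subgroup.coe_inv]
      group
    have h2 : ∀ z n' : N, χ (n'⁻¹ * z * n') = χ z := by
      intro z n'
      rw [map_mul, map_mul, map_inv, mul_comm, mul_inv_cancel_left]
    rw [h1, h2]
  set Wq : A ⧸ N → ℤ := fun q => W q.out with hWq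
  have hq : ∀ y : A, Wq (y : A ⧸ N) = W y := by
    intro y
    obtain ⟨n, hn⟩ := QuotientGroup.mk_out_eq_mul N y
    simp only [hWq]
    rw [hn, hWN y n n.2]
  have h1 : Wq 1 ≠ 0 := by
    have h2 := hq 1
    rw [QuotientGroup.mk_one] at h2
    rw [h2]
    intro h3
    apply hχ
    simp only [hW, inv_one, map_one, MulAut.one_apply] at h3
    exact Multiplicative.toAdd.injective h3
  obtain ⟨t, ht⟩ := gen_poly (A ⧸ N) Wq h1
  refine ⟨∏ f : A ⧸ N, (χ.comp (MulAut.conjNormal (f.out)⁻¹).toMonoidHom) ^ (t f), ?_⟩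
  intro a h h2
  apply ht (a : A ⧸ N)
  have h3 : ∀ f : A ⧸ N, Wq ((a : A ⧸ N) * f) =
      (χ (MulAut.conjNormal (f.out)⁻¹ ⟨a⁻¹ * e * a, h⟩)).toAdd := by
    intro f
    have h4 : ((a : A ⧸ N) * f) = ((a * f.out : A) : A ⧸ N) := by
      rw [QuotientGroup.mk_mul, QuotientGroup.out_eq']
    rw [h4, hq]
    simp only [hW]
    have h5 : (⟨a⁻¹ * e * a, h⟩ : N) = MulAut.conjNormal a⁻¹ (⟨e, he⟩ : N) := by
      apply Subtype.ext
      simp
    rw [h5, hcomp, mul_inv_rev]
  have h6 := congrArg Multiplicative.toAdd h2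
  rw [MonoidHom.finsetProd_apply, toAdd_prod] at h6
  rw [toAdd_one] at h6
  rw [← h6]
  apply Finset.sum_congr rfl
  intro f _
  rw [h3 f]
  show _ = Multiplicative.toAdd ((χ (MulAut.conjNormal (f.out)⁻¹ ⟨a⁻¹ * e * a, h⟩)) ^ (t f))
  rw [toAdd_zpow, smul_eq_mul, mul_comm]

end Pool.Agent.Q238.RA
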