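import Pool.Agent.Q31.RA.Stm

set_option autoImplicit false

/-! Project RA (helper31), job RA-PO: potency with a character. -/

namespace Pool.Agent.Q238.RA

open Pool.Agent.Q31.RA

/-- the gcd of a family of integers -/
theorem gcd_family {ι : Type} (v : ι → ℤ) (i₀ : ι) (h0 : v i₀ ≠ 0) :
    ∃ g : ℤ, g ≠ 0 ∧ (∀ i, g ∣ v i) ∧ ∀ k l : ℤ, (∀ i, k * g ∣ l * v i) → k ∣ l := by
  set I : Ideal ℤ := Ideal.span (Set.range v) with hI
  set g := Submodule.IsPrincipal.generator I with hg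
  have hmem : ∀ x, x ∈ I ↔ g ∣ x := fun x => Submodule.IsPrincipal.mem_iff_generator_dvd I
  have hv : ∀ i, g ∣ v i := fun i => (hmem _).1 (Ideal.subset_span ⟨i, rfl⟩)
  have hg0 : g ≠ 0 := by
    intro h
    have := hv i₀
    rw [h, zero_dvd_iff] at this
    exact h0 this
  refine ⟨g, hg0, hv, ?_⟩
  intro k l h
  have h1 : ∀ x ∈ I, k * g ∣ l * x := by
    intro x hx
    rw [hI] at hx
    refine Submodule.span_induction ?_ ?_ ?_ ?_ hx
    · rintro _ ⟨i, rfl⟩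
      exact h i
    · simp
    · intro x y _ _ h2 h3
      rw [mul_add]
      exact dvd_add h2 h3
    · intro a x _ h2
      rw [smul_eq_mul, mul_left_comm]
      exact h2.mul_left a
  have h2 := h1 g ((hmem g).2 dvd_rfl)
  exact (mul_dvd_mul_iff_right hg0).1 h2

theorem t_Pot : S_Pot := by
  intro C A _ _ j hVR c hc hfi
  classical
  obtain ⟨K, hK, hj, ρ, hρ⟩ := hVR
  have hinj : ∀ a b : ℤ, c ^ a = c ^ b → a = b := by
    intro a b h
    have h1 : c ^ (a - b) = 1 := by rw [zpow_sub, h, mul_inv_cancel]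
    have := hc _ h1
    omega
  set K₁ : Subgroup K := (Subgroup.zpowers c).comap ρ with hK₁
  have hK₁i : K₁.index ≠ 0 := by
    rw [hK₁, Subgroup.index_comap]
    have h1 : ((Subgroup.zpowers c).subgroupOf ρ.range).FiniteIndex := inferInstance
    exact h1.index_ne_zero
  set K' : Subgroup A := K₁.map K.subtype with hK'
  have hK'i : K'.FiniteIndex := by
    constructor
    rw [hK', Subgroup.index_map_subtype]
    exact mul_ne_zero hK₁i hK.index_ne_zero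
  set N₀ : Subgroup A := K'.normalCore with hN₀
  have hN₀i : N₀.FiniteIndex := Subgroup.finiteIndex_normalCore K'
  have hN₀n : N₀.Normal := Subgroup.normalCore_normal K'
  have hex : ∀ x : N₀, ∃ n : ℤ, ∃ h : (x : A) ∈ K, ρ ⟨x, h⟩ = c ^ n := by
    intro x
    have h1 : (x : A) ∈ K' := Subgroup.normalCore_le K' x.2
    obtain ⟨y, hy, hyx⟩ := h1
    obtain ⟨n, hn⟩ := hy
    have h2 : (x : A) ∈ K := by
      rw [← hyx]
      exact y.2
    refine ⟨n, h2, ?_⟩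
    have h3 : (⟨x, h2⟩ : K) = y := Subtype.ext hyx.symm
    rw [h3]
    exact hn.symm
  choose χf hχK hχf using hex
  set χ₀ : N₀ →* Multiplicative ℤ := MonoidHom.mk' (fun x => Multiplicative.ofAdd (χf x)) (by
    intro x y
    rw [← ofAdd_add]
    congr 1
    apply hinj
    rw [zpow_add, ← hχf, ← hχf, ← hχf, ← map_mul]
    rfl) with hχ₀
  have hχ0 : ∀ x : N₀, (χ₀ x).toAdd = χf x := fun x => rfl
  -- elements of `C`
  have F3 : ∀ (n : ℤ) (h : j (c ^ n) ∈ N₀), (χ₀ ⟨j (c ^ n), h⟩).toAdd = n := by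
    intro n h
    rw [hχ0]
    apply hinj
    rw [← hχf]
    exact hρ _
  have F1 : ∀ d : C, j d ∈ N₀ → ∃ n : ℤ, d = c ^ n := by
    intro d hd
    refine ⟨χf ⟨j d, hd⟩, ?_⟩
    rw [← hχf]
    exact (hρ d).symm
  -- the number `m`
  have hm : ∃ m : ℕ, 0 < m ∧ j (c ^ m) ∈ N₀ := by
    obtain ⟨m, hm, -, h⟩ := Subgroup.exists_pow_mem_of_index_ne_zero hN₀i.index_ne_zero (j c)
    exact ⟨m, hm, by rwa [map_pow]⟩
  set m := Nat.find hm with hmdef
  obtain ⟨hm0, hmN⟩ := Nat.find_spec hm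
  rw [← hmdef] at hm0 hmN
  have hmz : (0 : ℤ) < m := by exact_mod_cast hm0
  have hmNz : j (c ^ (m : ℤ)) ∈ N₀ := by rwa [zpow_natCast]
  have F2 : ∀ n : ℤ, j (c ^ n) ∈ N₀ → (m : ℤ) ∣ n := by
    intro n hn
    have h1 : j (c ^ (n % m)) ∈ N₀ := by
      have h2 : c ^ (n % (m : ℤ)) = c ^ n * (c ^ (m : ℤ)) ^ (-(n / (m : ℤ))) := by
        rw [← zpow_mul, ← zpow_add]
        congr 1
        have := Int.emod_add_mul_ediv n m
        linarith
      rw [h2, map_mul, map_zpow j (c ^ (m : ℤ))]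
      exact N₀.mul_mem hn (N₀.zpow_mem hmNz _)
    have h3 := Int.emod_nonneg n hmz.ne'
    have h4 := Int.emod_lt_of_pos n hmz
    obtain ⟨r, hr⟩ := Int.eq_ofNat_of_zero_le h3
    rw [hr] at h1 h4
    by_contra h5
    have h6 : 0 < r := by
      rcases Nat.eq_zero_or_pos r with h7 | h7
      · rw [h7] at hr
        exact absurd (Int.dvd_of_emod_eq_zero (by simpa using hr)) h5
      · exact h7
    have h8 : r < Nat.find hm := by
      rw [← hmdef]
      exact_mod_cast h4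
    apply Nat.find_min hm h8
    refine ⟨h6, ?_⟩
    rwa [zpow_natCast] at h1
  -- conjugates
  have hconj : ∀ a : A, ∀ x ∈ N₀, a⁻¹ * x * a ∈ N₀ := by
    intro a x hx
    have := hN₀n.conj_mem x hx a⁻¹
    simpa using this
  set v : A → ℤ := fun a => (χ₀ ⟨a⁻¹ * j (c ^ (m : ℤ)) * a, hconj a _ hmNz⟩).toAdd with hv
  have F4 : ∀ (l : ℤ) (a : A) (h : a⁻¹ * j (c ^ ((m : ℤ) * l)) * a ∈ N₀),
      (χ₀ ⟨a⁻¹ * j (c ^ ((m : ℤ) * l)) * a, h⟩).toAdd = l * v a := by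
    intro l a h
    have h1 : (⟨a⁻¹ * j (c ^ ((m : ℤ) * l)) * a, h⟩ : N₀) =
        (⟨a⁻¹ * j (c ^ (m : ℤ)) * a, hconj a _ hmNz⟩ : N₀) ^ l := by
      apply Subtype.ext
      rw [Subgroup.coe_zpow]
      have h2 := conj_zpow (i := l) (a := a⁻¹) (b := j (c ^ (m : ℤ)))
      rw [inv_inv] at h2
      rw [h2, ← map_zpow, ← zpow_mul]
    rw [h1, map_zpow, toAdd_zpow, smul_eq_mul]
  have hv1 : v 1 ≠ 0 := by
    have h1 : v 1 = m := by
      have h2 : (⟨1⁻¹ * j (c ^ (m : ℤ)) * 1, hconj 1 _ hmNz⟩ : N₀) = ⟨j (c ^ (m : ℤ)), hmNz⟩ := by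
        apply Subtype.ext
        simp
      simp only [hv]
      rw [h2, F3]
    rw [h1]
    exact hmz.ne'
  obtain ⟨g, hg0, hgv, hgk⟩ := gcd_family v 1 hv1
  refine ⟨m, hm0, ?_⟩
  intro k hk
  have hkz : (0 : ℤ) < k := by exact_mod_cast hk
  set n : ℕ := ((k : ℤ) * g).natAbs with hn
  have hn0 : n ≠ 0 := by
    rw [hn, Int.natAbs_ne_zero]
    exact mul_ne_zero hkz.ne' hg0
  have : NeZero n := ⟨hn0⟩
  set φ : N₀ →* Multiplicative (ZMod n) :=
    (AddMonoidHom.toMultiplicative (Int.castAddHom (ZMod n))).comp χ₀ with hφ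
  have hker : ∀ x : N₀, x ∈ φ.ker ↔ (k : ℤ) * g ∣ (χ₀ x).toAdd := by
    intro x
    rw [MonoidHom.mem_ker]
    have h1 : φ x = Multiplicative.ofAdd (((χ₀ x).toAdd : ℤ) : ZMod n) := rfl
    rw [h1, ofAdd_eq_one, ZMod.intCast_zmod_eq_zero_iff_dvd, hn, Int.natAbs_dvd]
  have hkeri : φ.ker.index ≠ 0 := by
    have : φ.ker.FiniteIndex := Subgroup.finiteIndex_ker φ
    exact Subgroup.FiniteIndex.index_ne_zero
  set N₁ : Subgroup A := φ.ker.map N₀.subtype with hN₁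
  have hN₁i : N₁.FiniteIndex := by
    constructor
    rw [hN₁, Subgroup.index_map_subtype]
    exact mul_ne_zero hkeri hN₀i.index_ne_zero
  have hmem1 : ∀ x : A, x ∈ N₁ ↔ ∃ h : x ∈ N₀, (k : ℤ) * g ∣ (χ₀ ⟨x, h⟩).toAdd := by
    intro x
    constructor
    · rintro ⟨y, hy, rfl⟩
      exact ⟨y.2, (hker y).1 hy⟩
    · rintro ⟨h, h1⟩
      exact ⟨⟨x, h⟩, (hker _).2 h1, rfl⟩
  set N : Subgroup A := N₁.normalCore with hN
  have hNi : N.FiniteIndex := Subgroup.finiteIndex_normalCore N₁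
  have hNn : N.Normal := Subgroup.normalCore_normal N₁
  have hNN₁ : N ≤ N₁ := Subgroup.normalCore_le N₁
  have hNN₀ : N ≤ N₀ := fun x hx => ((hmem1 x).1 (hNN₁ hx)).1
  have hmemN : ∀ x : A, (∀ a : A, a⁻¹ * x * a ∈ N₁) → x ∈ N := by
    intro x h b
    have := h b⁻¹
    rwa [inv_inv] at this
  have hkN : ∀ l : ℤ, j (c ^ ((m : ℤ) * ((k : ℤ) * l))) ∈ N := by
    intro l
    apply hmemN
    intro a
    rw [hmem1]
    have h1 : j (c ^ ((m : ℤ) * ((k : ℤ) * l))) ∈ N₀ := by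
      rw [zpow_mul, map_zpow]
      exact N₀.zpow_mem hmNz _
    refine ⟨hconj a _ h1, ?_⟩
    rw [F4]
    obtain ⟨q, hq⟩ := hgv a
    rw [hq]
    exact ⟨l * q, by ring⟩
  have hcom : N.comap j = Subgroup.zpowers (c ^ (m * k)) := by
    ext d
    rw [Subgroup.mem_comap, Subgroup.mem_zpowers_iff]
    constructor
    · intro hd
      obtain ⟨n', hn'⟩ := F1 d (hNN₀ hd)
      subst hn'
      obtain ⟨l, hl⟩ := F2 n' (hNN₀ hd)
      subst hl
      have h1 : (k : ℤ) ∣ l := by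
        apply hgk
        intro a
        have h2 : a⁻¹ * j (c ^ ((m : ℤ) * l)) * a ∈ N := by
          have := hNn.conj_mem _ hd a⁻¹
          simpa using this
        obtain ⟨h3, h4⟩ := (hmem1 _).1 (hNN₁ h2)
        rwa [F4] at h4
      obtain ⟨l', hl'⟩ := h1
      refine ⟨l', ?_⟩
      rw [hl', ← zpow_natCast, ← zpow_mul]
      congr 1
      push_cast
      ring
    · rintro ⟨l, rfl⟩
      have h1 := hkN l
      have h2 : c ^ ((m : ℤ) * ((k : ℤ) * l)) = (c ^ (m * k)) ^ l := by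
        rw [← zpow_natCast, ← zpow_mul]
        congr 1
        push_cast
        ring
      rwa [h2] at h1
  refine ⟨N, hNn, hNi, χ₀.comp (Subgroup.inclusion hNN₀), hcom, ?_⟩
  have h1 : j (c ^ (m * k)) ∈ N := by
    have : c ^ (m * k) ∈ N.comap j := by
      rw [hcom]
      exact Subgroup.mem_zpowers _
    exact this
  refine ⟨h1, ?_⟩
  intro h2
  have h3 : j (c ^ ((m * k : ℕ) : ℤ)) ∈ N₀ := by
    rw [zpow_natCast]
    exact hNN₀ h1
  have h4 := F3 ((m * k : ℕ) : ℤ) h3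
  have h5 : (⟨j (c ^ ((m * k : ℕ) : ℤ)), h3⟩ : N₀) =
      Subgroup.inclusion hNN₀ ⟨j (c ^ (m * k)), h1⟩ := by
    apply Subtype.ext
    simp only [zpow_natCast]
    rfl
  rw [h5] at h4
  have h6 : χ₀ (Subgroup.inclusion hNN₀ ⟨j (c ^ (m * k)), h1⟩) = 1 := h2
  rw [h6, toAdd_one] at h4
  have h7 : (0 : ℤ) < ((m * k : ℕ) : ℤ) := by
    exact_mod_cast Nat.mul_pos hm0 hk
  omega

end Pool.Agent.Q238.RA
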