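import Pool.Agent.Q31.RA.Stm

set_option autoImplicit false

/-! Project RA (helper31), job RA-RO: adjoining `n`-th roots in an amenable group. -/

namespace Pool.Agent.Q238.RA

open Pool.Agent.Q31.RA

section

variable {A : Type} [Group A] (n : ℕ)

/-- the base embedding -/
def cc : A →* mono (ZMod n) A where
  toFun g := ⟨⟨fun p => (p.1, g * p.2), fun p => (p.1, g⁻¹ * p.2), fun p => by simp,
    fun p => by simp⟩, by
      rw [mem_mono]
      intro x m
      simp⟩
  map_one' := by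
    apply Subtype.ext
    apply Equiv.ext
    intro p
    simp
  map_mul' g h := by
    apply Subtype.ext
    apply Equiv.ext
    intro p
    simp [mul_assoc]

theorem cc_apply (g : A) (p : ZMod n × A) : (cc n g).1 p = (p.1, g * p.2) := rfl

/-- the root, as a permutation -/
def rp (e : A) : Equiv.Perm (ZMod n × A) where
  toFun p := (p.1 + 1, if p.1 + 1 = 0 then e * p.2 else p.2)
  invFun p := (p.1 - 1, if p.1 = 0 then e⁻¹ * p.2 else p.2)
  left_inv p := by
    obtain ⟨i, m⟩ := p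
    by_cases h : i + 1 = 0
    · simp [h, eq_neg_of_add_eq_zero_left h]
    · simp [h]
  right_inv p := by
    obtain ⟨i, m⟩ := p
    by_cases h : i = 0
    · simp [h]
    · simp [h]

theorem rp_apply (e : A) (i : ZMod n) (m : A) :
    rp n e (i, m) = (i + 1, if i + 1 = 0 then e * m else m) := rfl

/-- the root -/
def rr (e : A) : mono (ZMod n) A := ⟨rp n e, by
  rw [mem_mono]
  intro x m
  rw [rp_apply, rp_apply]
  by_cases h : x + 1 = 0
  · simp [h]
  · simp [h]⟩

/-- the orbit -/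
def FF (e m : A) (t : ℕ) : ZMod n × A := ((t : ZMod n), e ^ (t / n) * m)

theorem rp_FF (e m : A) (t : ℕ) : rp n e (FF n e m t) = FF n e m (t + 1) := by
  unfold FF
  rw [rp_apply, Nat.succ_div]
  have h : ((t : ZMod n) + 1 = 0) ↔ n ∣ t + 1 := by
    rw [← ZMod.natCast_eq_zero_iff]
    push_cast
    rfl
  by_cases h1 : n ∣ t + 1
  · rw [if_pos (h.2 h1), if_pos h1, pow_succ', mul_assoc]
    push_cast
    rfl
  · rw [if_neg (fun h2 => h1 (h.1 h2)), if_neg h1, add_zero]
    push_cast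
    rfl

theorem rp_pow_FF (e m : A) (t k : ℕ) : (rp n e ^ k) (FF n e m t) = FF n e m (t + k) := by
  induction k with
  | zero => simp
  | succ k ih =>
    rw [pow_succ', Equiv.Perm.mul_apply, ih, rp_FF]
    rfl

theorem rr_pow [NeZero n] (e : A) : rr n e ^ n = cc n e := by
  apply Subtype.ext
  apply Equiv.ext
  rintro ⟨i, m⟩
  have h1 : (rr n e ^ n).1 (i, m) = (rp n e ^ n) (i, m) := rfl
  have h2 : ((i, m) : ZMod n × A) = FF n e m i.val := by
    unfold FF
    rw [ZMod.natCast_zmod_val, Nat.div_eq_of_lt (ZMod.val_lt i), pow_zero, one_mul]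
  have h3 : FF n e m (i.val + n) = (i, e * m) := by
    unfold FF
    rw [Nat.add_div_right _ (Nat.pos_of_ne_zero (NeZero.ne n)),
      Nat.div_eq_of_lt (ZMod.val_lt i)]
    simp
  rw [h1, h2, rp_pow_FF, h3, ← h2]
  rfl

/-- the character -/
noncomputable def ps [NeZero n] (Ψ : A →* Multiplicative ℤ) :
    mono (ZMod n) A →* Multiplicative ℤ where
  toFun π := ∏ i : ZMod n, Ψ (π.1 (i, 1)).2
  map_one' := by simp
  map_mul' π σ := by
    have h0 := mem_mono.1 π.2
    have h1 : ∀ i : ZMod n, Ψ ((π * σ).1 (i, 1)).2 =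
        Ψ (π.1 ((σ.1 (i, 1)).1, 1)).2 * Ψ (σ.1 (i, 1)).2 := by
      intro i
      have h2 : (π * σ).1 (i, 1) = π.1 (σ.1 (i, 1)) := rfl
      have h3 := h0 (σ.1 (i, 1)).1 (σ.1 (i, 1)).2
      rw [h2]
      have h4 : π.1 (σ.1 (i, 1)) = π.1 ((σ.1 (i, 1)).1, (σ.1 (i, 1)).2) := rfl
      rw [h4, h3, map_mul]
    have hinj : Function.Injective (fun i : ZMod n => (σ.1 (i, 1)).1) := by
      intro i i' h
      have h5 : σ.1 (i, (σ.1 (i, 1)).2⁻¹) = σ.1 (i', (σ.1 (i', 1)).2⁻¹) := by
        rw [mem_mono.1 σ.2 i, mem_mono.1 σ.2 i', mul_inv_cancel, mul_inv_cancel]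
        exact Prod.ext h rfl
      have h6 := σ.1.injective h5
      exact (Prod.ext_iff.1 h6).1
    rw [Finset.prod_congr rfl (fun i _ => h1 i), Finset.prod_mul_distrib]
    congr 1
    exact Function.Bijective.prod_comp (Finite.injective_iff_bijective.1 hinj)
      (fun i => Ψ (π.1 (i, 1)).2)

end

theorem t_Root (h1 : S_Mono) : S_Root := by
  intro A _ Ψ n hn hA
  have : NeZero n := ⟨hn.ne'⟩
  refine ⟨mono (ZMod n) A, inferInstance, cc n, ps n Ψ, h1 (ZMod n) A inferInstance hA, ?_, ?_, ?_⟩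
  · intro a b h
    have h2 : (cc n a).1 (0, 1) = (cc n b).1 (0, 1) := by rw [h]
    rw [cc_apply, cc_apply] at h2
    have h3 := (Prod.ext_iff.1 h2).2
    simpa using h3
  · intro a
    show ∏ i : ZMod n, Ψ ((cc n a).1 (i, 1)).2 = _
    simp [cc_apply]
  · intro e
    refine ⟨rr n e, rr_pow n e, ?_⟩
    show ∏ i : ZMod n, Ψ (rp n e (i, 1)).2 = Ψ e
    rw [← Function.Bijective.prod_comp (Equiv.subRight (1 : ZMod n)).bijective
      (fun i => Ψ (rp n e (i, 1)).2)]
    have h2 : ∀ i : ZMod n, Ψ (rp n e ((Equiv.subRight (1 : ZMod n)) i, 1)).2 =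
        if i = 0 then Ψ e else 1 := by
      intro i
      rw [rp_apply]
      by_cases h : i = 0
      · simp [h]
      · simp [h]
    rw [Finset.prod_congr rfl (fun i _ => h2 i)]
    simp

end Pool.Agent.Q238.RA
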